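import Pool.Agent.Helper4.TD.SOne
import Pool.Agent.Helper4.BL.Letters
import Pool.Agent.Helper43.TD.Enum
import Pool.Agent.Helper43.TD.V1

/-!
# (S1) and (S2) for letter sets
-/

set_option autoImplicit false
set_option linter.unusedSectionVars false

namespace Pool.Agent.Helper4.TD

open Finset Pool.Agent.Helper74.BL Pool.Agent.Helper4.BL Pool.Agent.Helper43.TD

section ZHom

variable {K : Type*} [AddCommGroup K]

/-- multiples of `g` -/
noncomputable def zh (g : K) : ZMod (addOrderOf g) →+ K :=
  ZMod.lift (addOrderOf g) ⟨zmultiplesHom K g, by simp⟩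

theorem zh_int (g : K) (t : ℤ) : zh g (t : ZMod (addOrderOf g)) = t • g := by
  unfold zh
  rw [ZMod.lift_coe]
  rfl

theorem zh_one (g : K) : zh g 1 = g := by
  have := zh_int g 1
  simpa using this

theorem zh_inj (g : K) : Function.Injective (zh g) := by
  unfold zh
  rw [ZMod.lift_injective]
  intro m hm
  change m • g = 0 at hm
  rw [← addOrderOf_dvd_iff_zsmul_eq_zero] at hm
  exact (ZMod.intCast_zmod_eq_zero_iff_dvd _ _).2 hm

theorem zh_eq (g : K) [NeZero (addOrderOf g)] (p : ZMod (addOrderOf g)) :
    zh g p = (p.val : ℤ) • g := by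
  rw [← zh_int]
  congr 1
  simp

end ZHom

variable {K : Type*} [AddCommGroup K] [DecidableEq K] {J : Type*} [Fintype J] [DecidableEq J]
  {g : K} {f : J → K} {base : K → J → J} {L : Finset (K × J)} {c : J}

/-- a function constant on the class after more letters is constant on the old edges which are
not removed -/
theorem const_old (hL : Compat g f base L) {L' : Finset (K × J)}
    (h1 : ∀ l ∈ L, l ∈ L') {S : Finset (K × J)} (h2 : ∀ l ∈ L', l ∈ L ∨ l ∈ S)
    {C : K → ZMod 2} (hC : ConstV g f base L' c C) {y : K} {o : Option J}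
    (hy : Lcol g f base L y o = some c)
    (hS : ∀ l ∈ S, (y, o) ≠ (l.1, some l.2) ∧ (y, o) ≠ (l.1 + g, some l.2)) :
    C y = C (y + lab g f o) := by
  cases o with
  | none =>
    by_cases h3 : ∀ l ∈ L, y ∉ tails f l
    · rw [Lcol_none' h3] at hy
      exact absurd hy (by simp)
    · push Not at h3
      obtain ⟨l, hl, hy'⟩ := h3
      rw [Lcol_none hL hl hy'] at hy
      have h4 := hC.2 l (h1 l hl) (Option.some.inj hy)
      rw [lab_none]
      rcases mem_tails.1 hy' with rfl | rfl
      · exact h4.1
      · exact h4.2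
  | some j =>
    by_cases h3 : (y, j) ∈ L ∨ (y - g, j) ∈ L
    · rw [Lcol_some' h3] at hy
      exact absurd hy (by simp)
    · push Not at h3
      rw [Lcol_some h3.1 h3.2] at hy
      rw [lab_some]
      refine hC.1 y j (Option.some.inj hy) (fun h4 => ?_) (fun h4 => ?_)
      · rcases h2 _ h4 with h5 | h5
        · exact h3.1 h5
        · exact (hS _ h5).1 rfl
      · rcases h2 _ h4 with h5 | h5
        · exact h3.2 h5
        · exact (hS _ h5).2 (by simp)

section Finite

variable [Fintype K]

theorem vc_cn (hL : Compat g f base L) (h : VC g f base c L) :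
    Cn (ends (lab g f)) (cls (Lcol g f base L) (some c)) := by
  rw [← conn_iff_cn]
  exact (conn_some_iff hL).2 h

theorem tail_mem (hL : Compat g f base L) (hc : ∀ l ∈ L, base l.1 l.2 = c) {l : K × J}
    (hl : l ∈ L) {y : K} (hy : y ∈ tails f l) :
    ((y, none) : K × Option J) ∈ cls (Lcol g f base L) (some c) := by
  rw [mem_cls]
  change Lcol g f base L y none = some c
  rw [Lcol_none hL hl hy, hc l hl]

/-- (S1) for letter sets -/
theorem s1K : S1K := by
  intro K J _ _ _ _ _ g f base c L x j hg hodd hfj0 hfj hd hper hL hc hVC hx hfree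
  have hpos : 0 < addOrderOf g := addOrderOf_pos g
  have : NeZero (addOrderOf g) := ⟨hpos.ne'⟩
  have hN1 : addOrderOf g ≠ 1 := fun h => hg (AddMonoid.addOrderOf_eq_one_iff.1 h)
  have hN : 3 ≤ addOrderOf g := by
    obtain ⟨k, hk⟩ := hodd
    omega
  have hN2 : 2 ≤ addOrderOf g := by omega
  set z := zh g with hz
  have hzs : ∀ p, z (p + 1) = z p + g := fun p => by rw [map_add, hz, zh_one]
  have hzi : ∀ p, ∃ t : ℤ, z p = t • g := fun p => ⟨_, zh_eq g p⟩
  have hbase : ∀ p, base (x + z p) j = c := by
    intro p
    rw [zh_eq g p, natCast_zsmul]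
    induction p.val with
    | zero => simpa using hx
    | succ n ih => rw [succ_nsmul, ← add_assoc, hper, ih]
  have hfreez : ∀ p, (x + z p, j) ∉ L := by
    intro p
    obtain ⟨t, ht⟩ := hzi p
    rw [ht]
    exact hfree t
  have hfreez' : ∀ p, (x + z p - g, j) ∉ L := by
    intro p
    have h1 := hfreez (p - 1)
    rwa [map_sub, hz, zh_one, ← add_sub_assoc] at h1
  set H := cls (Lcol g f base L) (some c) with hH
  have hEv : Ev (ends (lab g f)) H := (Deg2.lcol hd hL).ev (some c)
  have hTwo : Two (ends (lab g f)) H := two_of_deg2 (Deg2.lcol hd hL) (some c)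
  have hCn := vc_cn hL hVC
  set e : ZMod (addOrderOf g) → K × Option J := fun p => (x + z p, some j) with he
  have heH : ∀ p, e p ∈ H := by
    intro p
    rw [hH, mem_cls]
    change Lcol g f base L (x + z p) (some j) = some c
    rw [Lcol_some (hfreez p) (hfreez' p), hbase]
  have hee : ∀ p, ends (lab g f) (e p) = s(x + z p, x + z p + f j) := fun p => rfl
  have hinj : Function.Injective e := by
    intro p q hpq
    have h1 := (Prod.mk.inj hpq).1
    exact zh_inj g (add_left_cancel h1)
  obtain ⟨p, hp⟩ := sOne hEv hCn hodd hN heH hee hinj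
  obtain ⟨t, ht⟩ := hzi p
  have hxy : ∀ q r, x + z q ≠ x + z r + f j := by
    intro q r h1
    obtain ⟨t₁, ht₁⟩ := hzi q
    obtain ⟨t₂, ht₂⟩ := hzi r
    rw [ht₁, ht₂] at h1
    apply hfj (t₁ - t₂)
    rw [sub_smul]
    have h2 : t₁ • g = t₂ • g + f j := by
      rw [add_assoc] at h1
      exact add_left_cancel h1
    rw [h2]
    abel
  have hne : ∀ q, x + z q ≠ x + z (q + 1) := fun q h1 =>
    ne_succ hN2 q (zh_inj g (add_left_cancel h1))
  -- no rung at the lower side
  have t1 : ((x + z p, none) : K × Option J) ∉ H := by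
    intro hm
    have hm' : x + z p ∈ ends (lab g f) (x + z p, (none : Option J)) := Sym2.mem_mk_left _ _
    have hm'' : x + z (p + 1) ∈ ends (lab g f) (x + z p, (none : Option J)) := by
      change _ ∈ s(x + z p, x + z p + lab g f none)
      rw [lab_none, hzs, ← add_assoc]
      exact Sym2.mem_mk_right _ _
    have key : ∀ h ∈ H \ {e p, e (p + 1)}, (x + z p ∈ ends (lab g f) h ∨
        x + z (p + 1) ∈ ends (lab g f) h) → h = (x + z p, none) := by
      intro h hh hor
      simp only [mem_sdiff, mem_insert, mem_singleton, not_or] at hh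
      rcases hor with h1 | h1
      · rcases hTwo.two_edges (heH p) hm (by simp [he]) (by rw [hee]; exact Sym2.mem_mk_left _ _)
          hm' hh.1 h1 with h2 | h2
        · exact absurd h2 hh.2.1
        · exact h2
      · rcases hTwo.two_edges (heH (p + 1)) hm (by simp [he])
          (by rw [hee]; exact Sym2.mem_mk_left _ _) hm'' hh.1 h1 with h2 | h2
        · exact absurd h2 hh.2.2
        · exact h2
    have h3 := hp (fun v => if v = x + z p ∨ v = x + z (p + 1) then 1 else 0) (by
      intro h hh
      by_cases h4 : x + z p ∈ ends (lab g f) h ∨ x + z (p + 1) ∈ ends (lab g f) h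
      · rw [key h hh h4]
        change bd _ s(x + z p, x + z p + lab g f none) = 0
        rw [bd_mk_eq_zero, lab_none, hzs, ← add_assoc]
        simp
      · revert h4
        generalize ends (lab g f) h = w
        induction w using Sym2.ind with
        | _ u v =>
          intro h4
          simp only [Sym2.mem_iff, not_or] at h4
          rw [bd_mk_eq_zero, if_neg (by
            rw [not_or]
            exact ⟨fun h => h4.1.1 h.symm, fun h => h4.2.1 h.symm⟩), if_neg (by
            rw [not_or]
            exact ⟨fun h => h4.1.2 h.symm, fun h => h4.2.2 h.symm⟩)])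
      (by simp) (by
        rw [if_neg (by
          rw [not_or]
          exact ⟨(hxy _ _).symm, (hxy _ _).symm⟩), if_neg (by
          rw [not_or]
          exact ⟨(hxy _ _).symm, (hxy _ _).symm⟩)])
      (x + z p) (x + z p + f j)
    simp only [true_or, if_true] at h3
    rw [if_neg (by
      rw [not_or]
      exact ⟨(hxy _ _).symm, (hxy _ _).symm⟩)] at h3
    exact absurd h3 (by decide)
  -- no rung at the upper side
  have t2 : ((x + z p + f j, none) : K × Option J) ∉ H := by
    intro hm
    have hs : x + z p + f j + g = x + z (p + 1) + f j := by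
      rw [hzs]
      abel
    have hm' : x + z p + f j ∈ ends (lab g f) (x + z p + f j, (none : Option J)) :=
      Sym2.mem_mk_left _ _
    have hm'' : x + z (p + 1) + f j ∈ ends (lab g f) (x + z p + f j, (none : Option J)) := by
      change _ ∈ s(x + z p + f j, x + z p + f j + lab g f none)
      rw [lab_none, hs]
      exact Sym2.mem_mk_right _ _
    have key : ∀ h ∈ H \ {e p, e (p + 1)}, (x + z p + f j ∈ ends (lab g f) h ∨
        x + z (p + 1) + f j ∈ ends (lab g f) h) → h = (x + z p + f j, none) := by
      intro h hh hor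
      simp only [mem_sdiff, mem_insert, mem_singleton, not_or] at hh
      rcases hor with h1 | h1
      · rcases hTwo.two_edges (heH p) hm (by simp [he])
          (by rw [hee]; exact Sym2.mem_mk_right _ _) hm' hh.1 h1 with h2 | h2
        · exact absurd h2 hh.2.1
        · exact h2
      · rcases hTwo.two_edges (heH (p + 1)) hm (by simp [he])
          (by rw [hee]; exact Sym2.mem_mk_right _ _) hm'' hh.1 h1 with h2 | h2
        · exact absurd h2 hh.2.2
        · exact h2
    have h3 := hp (fun v => if v = x + z p + f j ∨ v = x + z (p + 1) + f j then 1 else 0) (by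
      intro h hh
      by_cases h4 : x + z p + f j ∈ ends (lab g f) h ∨ x + z (p + 1) + f j ∈ ends (lab g f) h
      · rw [key h hh h4]
        change bd _ s(x + z p + f j, x + z p + f j + lab g f none) = 0
        rw [bd_mk_eq_zero, lab_none, hs]
        simp
      · revert h4
        generalize ends (lab g f) h = w
        induction w using Sym2.ind with
        | _ u v =>
          intro h4
          simp only [Sym2.mem_iff, not_or] at h4
          rw [bd_mk_eq_zero, if_neg (by
            rw [not_or]
            exact ⟨fun h => h4.1.1 h.symm, fun h => h4.2.1 h.symm⟩), if_neg (by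
            rw [not_or]
            exact ⟨fun h => h4.1.2 h.symm, fun h => h4.2.2 h.symm⟩)])
      (by
        rw [if_neg (by
          rw [not_or]
          exact ⟨hxy _ _, hxy _ _⟩), if_neg (by
          rw [not_or]
          exact ⟨hxy _ _, hxy _ _⟩)]) (by simp)
      (x + z p) (x + z p + f j)
    simp only [true_or, if_true] at h3
    rw [if_neg (by
      rw [not_or]
      exact ⟨hxy _ _, hxy _ _⟩)] at h3
    exact absurd h3 (by decide)
  have hcomp : Compat g f base (insert (x + z p, j) L) := by
    refine ⟨hg, ?_, ?_, ?_, ?_⟩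
    · intro l hl
      rcases mem_insert.1 hl with rfl | hl
      · exact hfj0
      · exact hL.fj l hl
    · intro l hl
      rcases mem_insert.1 hl with rfl | hl
      · exact hper _ _
      · exact hL.val l hl
    · intro l hl hl'
      rcases mem_insert.1 hl with rfl | hl
      · rcases mem_insert.1 hl' with h1 | h1
        · have h2 := (Prod.mk.inj h1).1
          simp only at h2
          rw [add_assoc, ← hzs] at h2
          exact hne p h2.symm
        · have h2 := hfreez (p + 1)
          rw [hzs, ← add_assoc] at h2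
          exact h2 h1
      · rcases mem_insert.1 hl' with h1 | h1
        · have h2 := hfreez (p - 1)
          apply h2
          obtain ⟨h3, h4⟩ := Prod.mk.inj h1
          have h5 : (x + z (p - 1), j) = l := by
            refine Prod.ext ?_ h4.symm
            simp only
            rw [map_sub, hz, zh_one, ← hz, ← add_sub_assoc, ← h3, add_sub_cancel_right]
          rw [h5]
          exact hl
        · exact hL.hor l hl h1
    · have hnt : ∀ l ∈ L, Disjoint (tails f (x + z p, j)) (tails f l) := by
        intro l hl
        rw [disjoint_left]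
        intro v hv hv'
        rcases mem_tails.1 hv with rfl | rfl
        · exact t1 (tail_mem hL hc hl hv')
        · exact t2 (tail_mem hL hc hl hv')
      intro l hl l' hl' hll'
      rcases mem_insert.1 hl with rfl | hl
      · rcases mem_insert.1 hl' with rfl | hl'
        · exact absurd rfl hll'
        · exact hnt l' hl'
      · rcases mem_insert.1 hl' with rfl | hl'
        · exact (hnt l hl).symm
        · exact hL.tail l hl l' hl' hll'
  refine ⟨t, ?_, ?_⟩
  · rw [← ht]
    exact hcomp
  · rw [← ht]
    intro C hC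
    have hnew := hC.2 (x + z p, j) (mem_insert_self _ _) (hbase p)
    apply hp C
    · rintro ⟨y, o⟩ hy
      simp only [mem_sdiff, mem_insert, mem_singleton, not_or] at hy
      obtain ⟨hy1, hy2, hy3⟩ := hy
      change bd C s(y, y + lab g f o) = 0
      rw [bd_mk_eq_zero]
      refine const_old hL (fun l hl => mem_insert_of_mem hl) (S := {(x + z p, j)}) (fun l hl => ?_)
        hC (mem_cls.1 hy1) (fun l hl => ?_)
      · rcases mem_insert.1 hl with h1 | h1
        · exact Or.inr (mem_singleton.2 h1)
        · exact Or.inl h1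
      · rw [mem_singleton] at hl
        subst hl
        refine ⟨hy2, fun h1 => hy3 ?_⟩
        rw [h1, he]
        simp only
        rw [hzs, ← add_assoc]
    · rw [hzs, ← add_assoc]
      exact hnew.1
    · have h1 := hnew.2
      simp only at h1
      rw [h1, hzs]
      congr 1
      abel

theorem cst_ind {V E : Type*} [DecidableEq V] {ends : E → Sym2 V} {H : Finset E} {u u' : V}
    (key : ∀ h ∈ H, u ∈ ends h ∨ u' ∈ ends h → ends h = s(u, u')) :
    Cst ends H (fun v => if v = u ∨ v = u' then 1 else 0) := by
  intro h hh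
  by_cases h4 : u ∈ ends h ∨ u' ∈ ends h
  · rw [key h hh h4, bd_mk_eq_zero]
    simp
  · revert h4
    generalize ends h = w
    induction w using Sym2.ind with
    | _ a b =>
      intro h4
      simp only [Sym2.mem_iff, not_or] at h4
      rw [bd_mk_eq_zero, if_neg (by
        rw [not_or]
        exact ⟨fun h => h4.1.1 h.symm, fun h => h4.2.1 h.symm⟩), if_neg (by
        rw [not_or]
        exact ⟨fun h => h4.1.2 h.symm, fun h => h4.2.2 h.symm⟩)]

/-- the strand of the edge `(x, j)` at the vertex `z`: its other end is `P` -/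
structure Strand (g : K) (f : J → K) (x : K) (j : J) (z P : K) : Prop where
  eq : ∀ w, s(x + w, x + w + f j) = s(P + w, z + w)
  ne : ∀ t : ℤ, P ≠ z + t • g

theorem exists_strand {x z : K} {j : J} (h : x = z ∨ x + f j = z)
    (hfj : ∀ t : ℤ, f j ≠ t • g) : ∃ P, Strand g f x j z P := by
  rcases h with rfl | rfl
  · refine ⟨x + f j, fun w => ?_, fun t h => hfj t (add_left_cancel h)⟩
    rw [Sym2.eq_swap, add_right_comm]
  · refine ⟨x, fun w => ?_, fun t h => hfj (-t) ?_⟩
    · rw [add_right_comm]
    · have h1 : f j + t • g = 0 := by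
        have h2 : x + (f j + t • g) = x + 0 := by
          rw [← add_assoc, ← h, add_zero]
        exact add_left_cancel h2
      rw [neg_smul]
      exact eq_neg_of_add_eq_zero_left h1

theorem Strand.ends {x z P : K} {j : J} (h : Strand g f x j z P) (w : K) :
    ends (lab g f) (x + w, some j) = s(P + w, z + w) := h.eq w

theorem Strand.tails {x z P : K} {j : J} (h : Strand g f x j z P) (w v : K) :
    v ∈ tails f (x + w, j) ↔ v = P + w ∨ v = z + w := by
  rw [mem_tails, ← Sym2.mem_iff, ← Sym2.mem_iff]
  simp only
  rw [h.eq w]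

theorem Strand.val {x z P : K} {j : J} (h : Strand g f x j z P) {w : K} {C : K → ZMod 2}
    (hC : C (x + w) = C (x + w + g) ∧ C (x + w + f j) = C (x + w + f j + g)) :
    C (P + w) = C (P + w + g) ∧ C (z + w) = C (z + w + g) := by
  rcases Sym2.eq_iff.1 (h.eq w) with ⟨h1, h2⟩ | ⟨h1, h2⟩
  · rw [← h1, ← h2]
    exact hC
  · rw [← h1, ← h2]
    exact hC.symm

theorem Strand.ne' {x z P : K} {j : J} (h : Strand g f x j z P) (a b : ℤ) :
    P + a • g ≠ z + b • g := by
  intro h1
  apply h.ne (b - a)
  rw [sub_smul]
  have : P = z + b • g - a • g := by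
    rw [← h1]
    abel
  rw [this]
  abel

/-- the common part of the two cases of (S2) -/
theorem s2_case (hg : g ≠ 0) (hodd : Odd (addOrderOf g)) (hd : Deg2 f base)
    (hper : ∀ x j, base (x + g) j = base x j) (hL : Compat g f base L)
    (hc : ∀ l ∈ L, base l.1 l.2 = c) {x x' z P R : K} {j j' : J} (hfj : f j ≠ 0) (hfj' : f j' ≠ 0)
    (hP : Strand g f x j z P) (hR : Strand g f x' j' z R)
    (hx : base x j = c) (hx' : base x' j' = c) (hne : ∀ t : ℤ, (x, j) ≠ (x' + t • g, j'))
    (hfree : ∀ t : ℤ, (x + t • g, j) ∉ L) (hfree' : ∀ t : ℤ, (x' + t • g, j') ∉ L)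
    (hA : ∀ C : K → ZMod 2, (Cst (ends (lab g f)) (cls (Lcol g f base L) (some c) \
        {(x, some j), (x + g, some j), (x' + g, some j'), (x' + g + g, some j')}) C ∧
        C P = C (P + g) ∧ C z = C (z + g) ∧ C (z + g) = C (z + g + g) ∧
        C (R + g) = C (R + g + g)) → ∀ u v, C u = C v) :
    Compat g f base (insert (x, j) (insert (x' + g, j') L)) ∧
      VC g f base c (insert (x, j) (insert (x' + g, j') L)) := by
  have h2g : g + g ≠ 0 := by
    intro h
    have h1 : (2 : ℕ) • g = 0 := by rw [two_nsmul, h]
    have h2 := addOrderOf_dvd_of_nsmul_eq_zero h1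
    have h3 : addOrderOf g = 1 ∨ addOrderOf g = 2 := (Nat.dvd_prime Nat.prime_two).1 h2
    rcases h3 with h3 | h3
    · exact hg (AddMonoid.addOrderOf_eq_one_iff.1 h3)
    · rw [h3] at hodd
      exact absurd hodd (by decide)
  set H := cls (Lcol g f base L) (some c) with hH
  have hTwo : Two (Pool.Agent.Helper74.BL.ends (lab g f)) H := two_of_deg2 (Deg2.lcol hd hL) (some c)
  -- periodicity
  have hb : ∀ (y : K) (i : J), base y i = c → ∀ n : ℕ, base (y + n • g) i = c := by
    intro y i hy n
    induction n with
    | zero => simpa using hy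
    | succ n ih => rw [succ_nsmul, ← add_assoc, hper, ih]
  have memH : ∀ (y : K) (i : J), base y i = c → (∀ t : ℤ, (y + t • g, i) ∉ L) → ∀ n : ℕ,
      (y + n • g, some i) ∈ H := by
    intro y i hy hfr n
    rw [hH, mem_cls]
    change Lcol g f base L (y + n • g) (some i) = some c
    rw [Lcol_some, hb y i hy n]
    · have := hfr n
      rwa [natCast_zsmul] at this
    · have := hfr (n - 1)
      rwa [sub_smul, one_smul, natCast_zsmul, ← add_sub_assoc] at this
  have ma : ∀ n : ℕ, (x + n • g, some j) ∈ H := memH x j hx hfree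
  have mb : ∀ n : ℕ, (x' + n • g, some j') ∈ H := memH x' j' hx' hfree'
  have ma0 : (x, some j) ∈ H := by simpa using ma 0
  have ma1 : (x + g, some j) ∈ H := by simpa using ma 1
  have mb1 : (x' + g, some j') ∈ H := by simpa using mb 1
  have mb2 : (x' + g + g, some j') ∈ H := by
    have := mb 2
    rwa [two_nsmul, ← add_assoc] at this
  have mb0 : (x', some j') ∈ H := by simpa using mb 0
  have ea0 : Pool.Agent.Helper74.BL.ends (lab g f) (x, some j) = s(P, z) := by
    have := hP.ends 0
    simpa using this
  have ea1 : Pool.Agent.Helper74.BL.ends (lab g f) (x + g, some j) = s(P + g, z + g) := hP.ends g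
  have eb0 : Pool.Agent.Helper74.BL.ends (lab g f) (x', some j') = s(R, z) := by
    have := hR.ends 0
    simpa using this
  have eb1 : Pool.Agent.Helper74.BL.ends (lab g f) (x' + g, some j') = s(R + g, z + g) := hR.ends g
  have eb2 : Pool.Agent.Helper74.BL.ends (lab g f) (x' + g + g, some j') = s(R + g + g, z + g + g) := by
    have := hR.ends (g + g)
    simpa only [← add_assoc] using this
  -- edges are different
  have nab : ∀ (m n : ℤ), ((x + m • g, some j) : K × Option J) ≠ (x' + n • g, some j') := by
    intro m n h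
    obtain ⟨h1, h2⟩ := Prod.mk.inj h
    apply hne (n - m)
    refine Prod.ext ?_ (Option.some.inj h2)
    simp only
    rw [sub_smul]
    have : x = x' + n • g - m • g := by
      rw [← h1]
      abel
    rw [this]
    abel
  have n01 : ((x, some j) : K × Option J) ≠ (x' + g, some j') := by
    have := nab 0 1
    simpa using this
  have n00 : ((x, some j) : K × Option J) ≠ (x', some j') := by
    have := nab 0 0
    simpa using this
  have n11 : ((x + g, some j) : K × Option J) ≠ (x' + g, some j') := by
    have := nab 1 1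
    simpa using this
  have n12 : ((x + g, some j) : K × Option J) ≠ (x' + g + g, some j') := by
    have := nab 1 2
    rwa [one_smul, two_smul, ← add_assoc] at this
  -- vertices
  have hzg : z ≠ z + g := fun h => hg (left_eq_add.1 h)
  have hzg1 : z + g ≠ z + g + g := fun h => hg (left_eq_add.1 h)
  have hzg2 : z ≠ z + g + g := fun h => h2g (by
    rw [add_assoc] at h
    exact left_eq_add.1 h)
  have pz : ∀ a b : ℤ, P + a • g ≠ z + b • g := hP.ne'
  have rz : ∀ a b : ℤ, R + a • g ≠ z + b • g := hR.ne'
  have pz00 : P ≠ z := by simpa using pz 0 0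
  have pz01 : P ≠ z + g := by simpa using pz 0 1
  have pz02 : P ≠ z + g + g := by
    have := pz 0 2
    rwa [zero_smul, add_zero, two_smul, ← add_assoc] at this
  have pz10 : P + g ≠ z := by simpa using pz 1 0
  have pz11 : P + g ≠ z + g := by simpa using pz 1 1
  have pz12 : P + g ≠ z + g + g := by
    have := pz 1 2
    rwa [one_smul, two_smul, ← add_assoc] at this
  have rz10 : R + g ≠ z := by simpa using rz 1 0
  have rz11 : R + g ≠ z + g := by simpa using rz 1 1
  have rz12 : R + g ≠ z + g + g := by
    have := rz 1 2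
    rwa [one_smul, two_smul, ← add_assoc] at this
  have rz20 : R + g + g ≠ z := by
    have := rz 2 0
    rwa [two_smul, zero_smul, add_zero, ← add_assoc] at this
  have rz21 : R + g + g ≠ z + g := by
    have := rz 2 1
    rwa [one_smul, two_smul, ← add_assoc] at this
  have rz22 : R + g + g ≠ z + g + g := by
    have := rz 2 2
    rwa [two_smul, ← add_assoc, ← add_assoc] at this
  have rungends : ∀ y : K, Pool.Agent.Helper74.BL.ends (lab g f) (y, (none : Option J)) =
      s(y, y + g) := fun y => rfl
  -- the rung at `P`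
  have t1 : ((P, none) : K × Option J) ∉ H := by
    intro hm
    have hm' : P ∈ Pool.Agent.Helper74.BL.ends (lab g f) (P, (none : Option J)) := by
      rw [rungends]
      exact Sym2.mem_mk_left _ _
    have hm'' : P + g ∈ Pool.Agent.Helper74.BL.ends (lab g f) (P, (none : Option J)) := by
      rw [rungends]
      exact Sym2.mem_mk_right _ _
    have at0 : ∀ h ∈ H, P ∈ Pool.Agent.Helper74.BL.ends (lab g f) h →
        h = (x, some j) ∨ h = (P, none) := fun h hh hv =>
      hTwo.two_edges ma0 hm (by simp) (by rw [ea0]; exact Sym2.mem_mk_left _ _) hm' hh hv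
    have at1 : ∀ h ∈ H, P + g ∈ Pool.Agent.Helper74.BL.ends (lab g f) h →
        h = (x + g, some j) ∨ h = (P, none) := fun h hh hv =>
      hTwo.two_edges ma1 hm (by simp) (by rw [ea1]; exact Sym2.mem_mk_left _ _) hm'' hh hv
    have r1 : ∀ w, (w = P ∨ w = P + g) → ∀ n : ℕ, (n = 1 ∨ n = 2) → w ≠ R + n • g := by
      intro w hw n hn h
      have h1 : w ∈ Pool.Agent.Helper74.BL.ends (lab g f) (x' + n • g, some j') := by
        rw [hR.ends, h]
        exact Sym2.mem_mk_left _ _
      rcases hw with rfl | rfl
      · rcases at0 _ (mb n) h1 with h2 | h2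
        · have h3 := nab 0 n
          rw [zero_smul, add_zero, natCast_zsmul] at h3
          exact h3 h2.symm
        · simp at h2
      · rcases at1 _ (mb n) h1 with h2 | h2
        · have h3 := nab 1 n
          rw [one_smul, natCast_zsmul] at h3
          exact h3 h2.symm
        · simp at h2
    have r11 := r1 P (Or.inl rfl) 1 (Or.inl rfl)
    have r12 := r1 P (Or.inl rfl) 2 (Or.inr rfl)
    have r21 := r1 (P + g) (Or.inr rfl) 1 (Or.inl rfl)
    have r22 := r1 (P + g) (Or.inr rfl) 2 (Or.inr rfl)
    rw [one_nsmul] at r11 r21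
    rw [two_nsmul, ← add_assoc] at r12 r22
    have h3 := hA (fun v => if v = P ∨ v = P + g then 1 else 0) ⟨by
      refine cst_ind fun h hh hor => ?_
      simp only [mem_sdiff, mem_insert, mem_singleton, not_or] at hh
      rcases hor with h1 | h1
      · rcases at0 h hh.1 h1 with h2 | h2
        · exact absurd h2 hh.2.1
        · rw [h2, rungends]
      · rcases at1 h hh.1 h1 with h2 | h2
        · exact absurd h2 hh.2.2.1
        · rw [h2, rungends], by simp, by
      rw [if_neg (by rw [not_or]; exact ⟨pz00.symm, pz10.symm⟩),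
        if_neg (by rw [not_or]; exact ⟨pz01.symm, pz11.symm⟩)], by
      rw [if_neg (by rw [not_or]; exact ⟨pz01.symm, pz11.symm⟩),
        if_neg (by rw [not_or]; exact ⟨pz02.symm, pz12.symm⟩)], by
      rw [if_neg (by rw [not_or]; exact ⟨r11.symm, r21.symm⟩),
        if_neg (by rw [not_or]; exact ⟨r12.symm, r22.symm⟩)]⟩ P z
    simp only [true_or, if_true] at h3
    rw [if_neg (by rw [not_or]; exact ⟨pz00.symm, pz10.symm⟩)] at h3
    exact absurd h3 (by decide)
  -- the rung at `R + g`
  have t2 : ((R + g, none) : K × Option J) ∉ H := by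
    intro hm
    have hm' : R + g ∈ Pool.Agent.Helper74.BL.ends (lab g f) (R + g, (none : Option J)) := by
      rw [rungends]
      exact Sym2.mem_mk_left _ _
    have hm'' : R + g + g ∈ Pool.Agent.Helper74.BL.ends (lab g f) (R + g, (none : Option J)) := by
      rw [rungends]
      exact Sym2.mem_mk_right _ _
    have at1 : ∀ h ∈ H, R + g ∈ Pool.Agent.Helper74.BL.ends (lab g f) h →
        h = (x' + g, some j') ∨ h = (R + g, none) := fun h hh hv =>
      hTwo.two_edges mb1 hm (by simp) (by rw [eb1]; exact Sym2.mem_mk_left _ _) hm' hh hv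
    have at2 : ∀ h ∈ H, R + g + g ∈ Pool.Agent.Helper74.BL.ends (lab g f) h →
        h = (x' + g + g, some j') ∨ h = (R + g, none) := fun h hh hv =>
      hTwo.two_edges mb2 hm (by simp) (by rw [eb2]; exact Sym2.mem_mk_left _ _) hm'' hh hv
    have r1 : ∀ w, (w = R + g ∨ w = R + g + g) → ∀ n : ℕ, (n = 0 ∨ n = 1) → w ≠ P + n • g := by
      intro w hw n hn h
      have h1 : w ∈ Pool.Agent.Helper74.BL.ends (lab g f) (x + n • g, some j) := by
        rw [hP.ends, h]
        exact Sym2.mem_mk_left _ _
      rcases hw with rfl | rfl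
      · rcases at1 _ (ma n) h1 with h2 | h2
        · have h3 := nab n 1
          rw [one_smul, natCast_zsmul] at h3
          exact h3 h2
        · simp at h2
      · rcases at2 _ (ma n) h1 with h2 | h2
        · have h3 := nab n 2
          rw [two_smul, natCast_zsmul, ← add_assoc] at h3
          exact h3 h2
        · simp at h2
    have r10 := r1 (R + g) (Or.inl rfl) 0 (Or.inl rfl)
    have r11 := r1 (R + g) (Or.inl rfl) 1 (Or.inr rfl)
    have r20 := r1 (R + g + g) (Or.inr rfl) 0 (Or.inl rfl)
    have r21 := r1 (R + g + g) (Or.inr rfl) 1 (Or.inr rfl)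
    rw [one_nsmul] at r11 r21
    rw [zero_nsmul, add_zero] at r10 r20
    have h3 := hA (fun v => if v = R + g ∨ v = R + g + g then 1 else 0) ⟨by
      refine cst_ind fun h hh hor => ?_
      simp only [mem_sdiff, mem_insert, mem_singleton, not_or] at hh
      rcases hor with h1 | h1
      · rcases at1 h hh.1 h1 with h2 | h2
        · exact absurd h2 hh.2.2.2.1
        · rw [h2, rungends]
      · rcases at2 h hh.1 h1 with h2 | h2
        · exact absurd h2 hh.2.2.2.2
        · rw [h2, rungends], by
      rw [if_neg (by rw [not_or]; exact ⟨r10.symm, r20.symm⟩),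
        if_neg (by rw [not_or]; exact ⟨r11.symm, r21.symm⟩)], by
      rw [if_neg (by rw [not_or]; exact ⟨rz10.symm, rz20.symm⟩),
        if_neg (by rw [not_or]; exact ⟨rz11.symm, rz21.symm⟩)], by
      rw [if_neg (by rw [not_or]; exact ⟨rz11.symm, rz21.symm⟩),
        if_neg (by rw [not_or]; exact ⟨rz12.symm, rz22.symm⟩)], by simp⟩ (R + g) z
    simp only [true_or, if_true] at h3
    rw [if_neg (by rw [not_or]; exact ⟨rz10.symm, rz20.symm⟩)] at h3
    exact absurd h3 (by decide)
  -- the two new letters have different tails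
  have t3 : P ≠ R + g := by
    intro hPR
    have at0 : ∀ h ∈ H, P ∈ Pool.Agent.Helper74.BL.ends (lab g f) h →
        h = (x, some j) ∨ h = (x' + g, some j') := fun h hh hv =>
      hTwo.two_edges ma0 mb1 n01 (by rw [ea0]; exact Sym2.mem_mk_left _ _)
        (by rw [eb1, hPR]; exact Sym2.mem_mk_left _ _) hh hv
    have at1 : ∀ h ∈ H, P + g ∈ Pool.Agent.Helper74.BL.ends (lab g f) h →
        h = (x + g, some j) ∨ h = (x' + g + g, some j') := fun h hh hv =>
      hTwo.two_edges ma1 mb2 n12 (by rw [ea1]; exact Sym2.mem_mk_left _ _)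
        (by rw [eb2, hPR]; exact Sym2.mem_mk_left _ _) hh hv
    have h3 := hA (fun v => if v = P ∨ v = P + g then 1 else 0) ⟨by
      refine cst_ind fun h hh hor => ?_
      simp only [mem_sdiff, mem_insert, mem_singleton, not_or] at hh
      rcases hor with h1 | h1
      · rcases at0 h hh.1 h1 with h2 | h2
        · exact absurd h2 hh.2.1
        · exact absurd h2 hh.2.2.2.1
      · rcases at1 h hh.1 h1 with h2 | h2
        · exact absurd h2 hh.2.2.1
        · exact absurd h2 hh.2.2.2.2, by simp, by
      rw [if_neg (by rw [not_or]; exact ⟨pz00.symm, pz10.symm⟩),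
        if_neg (by rw [not_or]; exact ⟨pz01.symm, pz11.symm⟩)], by
      rw [if_neg (by rw [not_or]; exact ⟨pz01.symm, pz11.symm⟩),
        if_neg (by rw [not_or]; exact ⟨pz02.symm, pz12.symm⟩)], by
      rw [← hPR]
      simp⟩ P z
    simp only [true_or, if_true] at h3
    rw [if_neg (by rw [not_or]; exact ⟨pz00.symm, pz10.symm⟩)] at h3
    exact absurd h3 (by decide)
  -- no rung at `z`, `z + g`
  have tz : ∀ n : ℕ, (z + n • g, none) ∉ H := by
    intro n hm
    have h1 : z + n • g ∈ Pool.Agent.Helper74.BL.ends (lab g f) (x + n • g, some j) := by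
      rw [hP.ends]
      exact Sym2.mem_mk_right _ _
    have h2 : z + n • g ∈ Pool.Agent.Helper74.BL.ends (lab g f) (x' + n • g, some j') := by
      rw [hR.ends]
      exact Sym2.mem_mk_right _ _
    have h3 := nab n n
    rw [natCast_zsmul] at h3
    rcases hTwo.two_edges (ma n) (mb n) h3 h1 h2 hm
      (by rw [rungends]; exact Sym2.mem_mk_left _ _) with h4 | h4
    · simp at h4
    · simp at h4
  have tz0 : ((z, none) : K × Option J) ∉ H := by simpa using tz 0
  have tz1 : ((z + g, none) : K × Option J) ∉ H := by simpa using tz 1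
  have tlx : ∀ v, v ∈ tails f (x, j) ↔ v = P ∨ v = z := by
    intro v
    have := hP.tails 0 v
    simpa using this
  have tlx' : ∀ v, v ∈ tails f (x' + g, j') ↔ v = R + g ∨ v = z + g := fun v => hR.tails g v
  have d1 : ∀ l ∈ L, Disjoint (tails f (x, j)) (tails f l) := by
    intro l hl
    rw [disjoint_left]
    intro v hv hv'
    have h1 := tail_mem hL hc hl hv'
    rcases (tlx v).1 hv with rfl | rfl
    · exact t1 h1
    · exact tz0 h1
  have d2 : ∀ l ∈ L, Disjoint (tails f (x' + g, j')) (tails f l) := by
    intro l hl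
    rw [disjoint_left]
    intro v hv hv'
    have h1 := tail_mem hL hc hl hv'
    rcases (tlx' v).1 hv with rfl | rfl
    · exact t2 h1
    · exact tz1 h1
  have d3 : Disjoint (tails f (x, j)) (tails f (x' + g, j')) := by
    rw [disjoint_left]
    intro v hv hv'
    rcases (tlx v).1 hv with rfl | rfl
    · rcases (tlx' _).1 hv' with h | h
      · exact t3 h
      · exact pz01 h
    · rcases (tlx' _).1 hv' with h | h
      · exact rz10 h.symm
      · exact hzg h
  have hzero : (x, j) ∉ L := by simpa using hfree 0
  have hminus : ∀ l ∈ L, (l.1 + g, l.2) ≠ (x, j) := by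
    intro l hl h
    obtain ⟨h1, h2⟩ := Prod.mk.inj h
    apply hfree (-1)
    have : (x + (-1 : ℤ) • g, j) = l := by
      refine Prod.ext ?_ h2.symm
      simp only
      rw [← h1, neg_smul, one_smul]
      abel
    rw [this]
    exact hl
  have hminus' : ∀ l ∈ L, (l.1 + g, l.2) ≠ (x' + g, j') := by
    intro l hl h
    obtain ⟨h1, h2⟩ := Prod.mk.inj h
    apply hfree' 0
    have : (x' + (0 : ℤ) • g, j') = l := by
      refine Prod.ext ?_ h2.symm
      simp only
      rw [zero_smul, add_zero]
      exact (add_right_cancel h1).symm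
    rw [this]
    exact hl
  have hplus : (x + g, j) ∉ L := by simpa using hfree 1
  have hplus' : (x' + g + g, j') ∉ L := by
    have := hfree' 2
    rwa [two_smul, ← add_assoc] at this
  have m12 : ((x + g, j) : K × J) ≠ (x' + g, j') := by
    intro h
    obtain ⟨h1, h2⟩ := Prod.mk.inj h
    exact n11 (by rw [h1, h2])
  have m21 : ((x' + g + g, j') : K × J) ≠ (x, j) := by
    intro h
    obtain ⟨h1, h2⟩ := Prod.mk.inj h
    have h3 := nab 0 2
    rw [zero_smul, add_zero, two_smul, ← add_assoc] at h3
    exact h3 (by rw [h1, h2])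
  have hxx : ∀ (y : K) (i : J), ((y + g, i) : K × J) ≠ (y, i) := by
    intro y i h
    exact hg (add_eq_left.1 (Prod.mk.inj h).1)
  have hcomp : Compat g f base (insert (x, j) (insert (x' + g, j') L)) := by
    refine ⟨hg, ?_, ?_, ?_, ?_⟩
    · intro l hl
      simp only [mem_insert] at hl
      rcases hl with rfl | rfl | hl
      · exact hfj
      · exact hfj'
      · exact hL.fj l hl
    · intro l hl
      simp only [mem_insert] at hl
      rcases hl with rfl | rfl | hl
      · exact hper _ _
      · exact hper _ _
      · exact hL.val l hl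
    · intro l hl hl'
      simp only [mem_insert] at hl hl'
      rcases hl with rfl | rfl | hl
      · rcases hl' with h | h | h
        · exact hxx x j h
        · exact m12 h
        · exact hplus h
      · rcases hl' with h | h | h
        · exact m21 h
        · exact hxx _ _ h
        · exact hplus' h
      · rcases hl' with h | h | h
        · exact hminus l hl h
        · exact hminus' l hl h
        · exact hL.hor l hl h
    · intro l hl l' hl' hll'
      simp only [mem_insert] at hl hl'
      rcases hl with rfl | rfl | hl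
      · rcases hl' with rfl | rfl | hl'
        · exact absurd rfl hll'
        · exact d3
        · exact d1 l' hl'
      · rcases hl' with rfl | rfl | hl'
        · exact d3.symm
        · exact absurd rfl hll'
        · exact d2 l' hl'
      · rcases hl' with rfl | rfl | hl'
        · exact (d1 l hl).symm
        · exact (d2 l hl).symm
        · exact hL.tail l hl l' hl' hll'
  refine ⟨hcomp, ?_⟩
  intro C hC
  have hx1 : base (x' + g) j' = c := by rw [hper, hx']
  have new1 := hC.2 (x, j) (mem_insert_self _ _) hx
  have new2 := hC.2 (x' + g, j') (mem_insert_of_mem (mem_insert_self _ _)) hx1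
  have v1 := hP.val (w := 0) (C := C) (by simpa using new1)
  have v2 := hR.val (w := g) (C := C) new2
  simp only [add_zero] at v1
  apply hA C
  refine ⟨?_, v1.1, v1.2, v2.2, v2.1⟩
  rintro ⟨y, o⟩ hy
  simp only [mem_sdiff, mem_insert, mem_singleton, not_or] at hy
  obtain ⟨hy1, hy2, hy3, hy4, hy5⟩ := hy
  change bd C s(y, y + lab g f o) = 0
  rw [bd_mk_eq_zero]
  refine const_old hL (fun l hl => mem_insert_of_mem (mem_insert_of_mem hl))
    (S := {(x, j), (x' + g, j')}) (fun l hl => ?_) hC (mem_cls.1 hy1) (fun l hl => ?_)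
  · simp only [mem_insert] at hl
    rcases hl with h1 | h1 | h1
    · exact Or.inr (by simp [h1])
    · exact Or.inr (by simp [h1])
    · exact Or.inl h1
  · simp only [mem_insert, mem_singleton] at hl
    rcases hl with rfl | rfl
    · exact ⟨hy2, hy3⟩
    · exact ⟨hy4, hy5⟩

/-- (S2) for letter sets -/
theorem s2K : S2K := by
  intro K J _ _ _ _ _ g f base c L z x x' j j' hg hodd hfj hfj' hd hper hL hc hVC hx hx' hne hz hz'
    hfree hfree'
  obtain ⟨P, hP⟩ := exists_strand hz hfj
  obtain ⟨R, hR⟩ := exists_strand hz' hfj'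
  have hfj0 : f j ≠ 0 := by simpa using hfj 0
  have hfj0' : f j' ≠ 0 := by simpa using hfj' 0
  have h2g : g + g ≠ 0 := by
    intro h
    have h1 : (2 : ℕ) • g = 0 := by rw [two_nsmul, h]
    have h2 := addOrderOf_dvd_of_nsmul_eq_zero h1
    have h3 : addOrderOf g = 1 ∨ addOrderOf g = 2 := (Nat.dvd_prime Nat.prime_two).1 h2
    rcases h3 with h3 | h3
    · exact hg (AddMonoid.addOrderOf_eq_one_iff.1 h3)
    · rw [h3] at hodd
      exact absurd hodd (by decide)
  set H := cls (Lcol g f base L) (some c) with hH
  have hEv : Ev (ends (lab g f)) H := (Deg2.lcol hd hL).ev (some c)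
  have hTwo : Two (ends (lab g f)) H := two_of_deg2 (Deg2.lcol hd hL) (some c)
  have hCn := vc_cn hL hVC
  have hb : ∀ (y : K) (i : J), base y i = c → ∀ n : ℕ, base (y + n • g) i = c := by
    intro y i hy n
    induction n with
    | zero => simpa using hy
    | succ n ih => rw [succ_nsmul, ← add_assoc, hper, ih]
  have memH : ∀ (y : K) (i : J), base y i = c → (∀ t : ℤ, (y + t • g, i) ∉ L) → ∀ n : ℕ,
      (y + n • g, some i) ∈ H := by
    intro y i hy hfr n
    rw [hH, mem_cls]
    change Lcol g f base L (y + n • g) (some i) = some c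
    rw [Lcol_some, hb y i hy n]
    · have := hfr n
      rwa [natCast_zsmul] at this
    · have := hfr (n - 1)
      rwa [sub_smul, one_smul, natCast_zsmul, ← add_sub_assoc] at this
  have ma : ∀ n : ℕ, (x + n • g, some j) ∈ H := memH x j hx hfree
  have mb : ∀ n : ℕ, (x' + n • g, some j') ∈ H := memH x' j' hx' hfree'
  have nab : ∀ n : ℕ, ((x + n • g, some j) : K × Option J) ≠ (x' + n • g, some j') := by
    intro n h
    obtain ⟨h1, h2⟩ := Prod.mk.inj h
    apply hne 0
    refine Prod.ext ?_ (Option.some.inj h2)
    simp only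
    rw [zero_smul, add_zero]
    exact add_right_cancel h1
  have hng : ∀ (y : K) (m n : ℕ), m < 3 → n < 3 → y + m • g = y + n • g → m = n := by
    intro y m n hm hn h
    have h1 := add_left_cancel h
    interval_cases m <;> interval_cases n <;> simp [two_nsmul, hg, h2g] at h1 ⊢
    · exact hg h1.symm
    · exact h2g h1.symm
  have hwin := window hEv hCn (p := fun i : Fin 3 => P + (i : ℕ) • g)
    (q := fun i : Fin 3 => z + (i : ℕ) • g) (r := fun i : Fin 3 => R + (i : ℕ) • g)
    (e := fun i : Fin 3 => (x + (i : ℕ) • g, some j))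
    (e' := fun i : Fin 3 => (x' + (i : ℕ) • g, some j'))
    (fun i => ma i) (fun i => mb i) (fun i => hP.ends _)
    (fun i => by
      rw [Sym2.eq_swap]
      exact hR.ends _)
    (fun i => nab i)
    (fun a ha i hi => hTwo.two_edges (ma i) (mb i) (nab i)
      (by rw [hP.ends]; exact Sym2.mem_mk_right _ _)
      (by rw [hR.ends]; exact Sym2.mem_mk_right _ _) ha hi)
    (fun i k hik => Fin.ext (hng z i k i.2 k.2 hik))
    (fun i k h => by
      have := hP.ne' k i
      rw [natCast_zsmul, natCast_zsmul] at this
      exact this h.symm)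
    (fun i k h => by
      have := hR.ne' k i
      rw [natCast_zsmul, natCast_zsmul] at this
      exact this h.symm)
    (A := fun C => Cst (ends (lab g f)) (H \
        {(x, some j), (x + g, some j), (x' + g, some j'), (x' + g + g, some j')}) C ∧
        C P = C (P + g) ∧ C z = C (z + g) ∧ C (z + g) = C (z + g + g) ∧
        C (R + g) = C (R + g + g))
    (B := fun C => Cst (ends (lab g f)) (H \
        {(x', some j'), (x' + g, some j'), (x + g, some j), (x + g + g, some j)}) C ∧
        C R = C (R + g) ∧ C z = C (z + g) ∧ C (z + g) = C (z + g + g) ∧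
        C (P + g) = C (P + g + g))
    (fun C hC => by
      obtain ⟨h1, h2, h3, h4, h5⟩ := hC
      refine ⟨?_, ?_, ?_, ?_, ?_⟩
      · simpa [two_nsmul, ← add_assoc] using h1
      · simpa using h2
      · simpa using h3
      · simpa [two_nsmul, ← add_assoc] using h4
      · simpa [two_nsmul, ← add_assoc] using h5)
    (fun C hC => by
      obtain ⟨h1, h2, h3, h4, h5⟩ := hC
      refine ⟨?_, ?_, ?_, ?_, ?_⟩
      · refine h1.mono ?_
        intro a ha
        simp only [mem_sdiff, mem_insert, mem_singleton, not_or, Fin.val_zero, Fin.val_one,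
          Fin.val_two, zero_nsmul, one_nsmul, two_nsmul, ← add_assoc, add_zero] at ha ⊢
        exact ⟨ha.1, ha.2.2.2.2, ha.2.2.2.1, ha.2.2.1, ha.2.1⟩
      · simpa [two_nsmul, ← add_assoc] using h5.symm
      · simpa [two_nsmul, ← add_assoc] using h4.symm
      · simpa using h3.symm
      · simpa using h2.symm)
  rcases hwin with hA | hB
  · exact Or.inl (s2_case hg hodd hd hper hL hc hfj0 hfj0' hP hR hx hx' hne hfree hfree' hA)
  · right
    rw [Finset.insert_comm]
    refine s2_case hg hodd hd hper hL hc hfj0' hfj0 hR hP hx' hx ?_ hfree' hfree hB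
    intro t h
    apply hne (-t)
    obtain ⟨h1, h2⟩ := Prod.mk.inj h
    refine Prod.ext ?_ h2.symm
    simp only
    rw [h1, neg_smul]
    abel

end Finite

end Pool.Agent.Helper4.TD
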