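import Pool.Agent.Helper74.BL.Cut

/-!
# (S1) A single neutral letter on an odd number of parallel strands
-/

set_option autoImplicit false

namespace Pool.Agent.Helper4.TD

open Finset Pool.Agent.Helper74.BL

variable {V E : Type*} [DecidableEq E] {ends : E → Sym2 V} {H : Finset E}

theorem ne_succ {N : ℕ} [NeZero N] (hN : 2 ≤ N) (p : ZMod N) : p ≠ p + 1 := by
  intro h
  have h1 : (1 : ZMod N) = 0 := by simpa using (left_eq_add.1 h)
  have : Fact (1 < N) := ⟨by omega⟩
  exact one_ne_zero h1

theorem ne_succ_succ {N : ℕ} [NeZero N] (hN : 3 ≤ N) (p : ZMod N) : p ≠ p + 1 + 1 := by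
  intro h
  rw [add_assoc] at h
  have h1 : (1 + 1 : ZMod N) = 0 := by simpa using (left_eq_add.1 h)
  have h2 : ((2 : ℕ) : ZMod N) = 0 := by
    rw [← h1]
    norm_num
  rw [ZMod.natCast_eq_zero_iff] at h2
  exact absurd (Nat.le_of_dvd (by norm_num) h2) (by omega)

/-- a symmetric matrix over `ZMod 2` with zero diagonal has total sum `0` -/
theorem sum_symm_zero {ι : Type*} [Fintype ι] [DecidableEq ι] (c : ι → ι → ZMod 2)
    (hs : ∀ p q, c p q = c q p) (hd : ∀ p, c p p = 0) : ∑ p, ∑ q, c p q = 0 := by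
  rw [← Fintype.sum_prod_type']
  refine Finset.sum_involution (fun a _ => (a.2, a.1)) ?_ ?_ ?_ ?_
  · rintro ⟨p, q⟩ -
    simp only
    rw [hs p q]
    exact z2_add_self _
  · rintro ⟨p, q⟩ - h h'
    simp only [Prod.mk.injEq] at h'
    apply h
    simp only
    rw [← h'.1]
    exact hd _
  · intro a _
    exact mem_univ _
  · rintro ⟨p, q⟩ -
    rfl

/-- (S1) `N` odd strands `x p, y p` of a connected even class: for some `p` the exchange of the
strands `p, p + 1` leaves the class connected -/
theorem sOne (hH : Ev ends H) (hC : Cn ends H) {N : ℕ} [NeZero N] (hodd : Odd N) (hN : 3 ≤ N)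
    {x y : ZMod N → V} {e : ZMod N → E} (he : ∀ p, e p ∈ H) (ee : ∀ p, ends (e p) = s(x p, y p))
    (hinj : Function.Injective e) :
    ∃ p, ∀ C : V → ZMod 2, Cst ends (H \ {e p, e (p + 1)}) C → C (x p) = C (x (p + 1)) →
      C (y p) = C (y (p + 1)) → ∀ u v, C u = C v := by
  classical
  by_contra hcon
  push Not at hcon
  choose C₀ h1 h2 h3 u v h4 using hcon
  have hN2 : 2 ≤ N := by omega
  -- normalisation
  set C : ZMod N → V → ZMod 2 := fun p w => C₀ p w + C₀ p (x p) with hCdef
  have c1 : ∀ p, Cst ends (H \ {e p, e (p + 1)}) (C p) := fun p => (h1 p).add_const _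
  have a0 : ∀ p, C p (x p) = 0 := fun p => z2_add_self _
  have a1 : ∀ p, C p (x (p + 1)) = 0 := fun p => by
    simp only [hCdef, ← h2]
    exact z2_add_self _
  have b01 : ∀ p, C p (y p) = C p (y (p + 1)) := fun p => by
    simp only [hCdef, h3]
  have off : ∀ p q, q ≠ p → q ≠ p + 1 → C p (x q) = C p (y q) := by
    intro p q hq hq'
    have := c1 p (e q) (by
      simp only [mem_sdiff, mem_insert, mem_singleton, not_or]
      exact ⟨he q, fun h => hq (hinj h), fun h => hq' (hinj h)⟩)
    rwa [ee, bd_mk_eq_zero] at this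
  have b0 : ∀ p, C p (y p) = 1 := by
    intro p
    have h5 : C p (y p) ≠ 0 := by
      intro h6
      apply h4 p
      have h7 : Cst ends H (C p) := by
        intro a ha
        by_cases h8 : a = e p
        · rw [h8, ee, bd_mk, a0, h6, add_zero]
        · by_cases h9 : a = e (p + 1)
          · rw [h9, ee, bd_mk, a1, ← b01, h6, add_zero]
          · exact c1 p a (by simp [ha, h8, h9])
      exact add_right_cancel (hC _ h7 (u p) (v p))
    have : ∀ a : ZMod 2, a ≠ 0 → a = 1 := by decide
    exact this _ h5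
  have b1 : ∀ p, C p (y (p + 1)) = 1 := fun p => by rw [← b01, b0]
  -- the jumps
  set A : ZMod N → ZMod N → ZMod 2 := fun p q => C p (x q) with hA
  have cut : ∀ p q, ∀ S : Finset (ZMod N), p ∈ S → p + 1 ∈ S → q ∈ S → q + 1 ∈ S →
      ∑ r ∈ S, (C p (x r) * C q (x r) + C p (y r) * C q (y r)) = 0 := by
    intro p q S m1 m2 m3 m4
    have h5 := hH.sum_sub (S := S.image e) (C := C p * C q) (by
      intro a ha
      obtain ⟨r, -, rfl⟩ := mem_image.1 ha
      exact he r) (by
      intro a ha
      rw [mem_sdiff, mem_image] at ha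
      refine bd_mul (c1 p a ?_) (c1 q a ?_)
      · simp only [mem_sdiff, mem_insert, mem_singleton, not_or]
        exact ⟨ha.1, fun h => ha.2 ⟨p, m1, h.symm⟩, fun h => ha.2 ⟨p + 1, m2, h.symm⟩⟩
      · simp only [mem_sdiff, mem_insert, mem_singleton, not_or]
        exact ⟨ha.1, fun h => ha.2 ⟨q, m3, h.symm⟩, fun h => ha.2 ⟨q + 1, m4, h.symm⟩⟩)
    rw [sum_image (fun r _ s _ h => hinj h)] at h5
    simpa only [ee, bd_mk, Pi.mul_apply] using h5
  have far : ∀ p q, q ≠ p → q ≠ p + 1 → p ≠ q + 1 →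
      A p q + A p (q + 1) = A q p + A q (p + 1) := by
    intro p q n1 n2 n3
    have n4 : p + 1 ≠ q + 1 := fun h => n1 (add_right_cancel h).symm
    have m1 : p ≠ p + 1 := ne_succ hN2 p
    have m2 : q ≠ q + 1 := ne_succ hN2 q
    have h5 := cut p q {p, p + 1, q, q + 1} (by simp) (by simp) (by simp) (by simp)
    rw [sum_insert (by simp [m1, n1.symm, n3]), sum_insert (by simp [n2.symm, n4]),
      sum_pair m2, a0, a1, b0, b1, a0, a1, b0, b1, ← off q p n1.symm n3,
      ← off q (p + 1) (fun h => n2 h.symm) n4, ← off p q n1 n2,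
      ← off p (q + 1) n3.symm n4.symm] at h5
    simp only [zero_mul, mul_zero, one_mul, mul_one, zero_add] at h5
    have h6 : ∀ a b c d : ZMod 2, a + (b + (c + d)) = 0 → c + d = a + b := by decide
    exact h6 _ _ _ _ h5
  have adj : ∀ p, A p (p + 1) + A p (p + 1 + 1) + (A (p + 1) p + A (p + 1) (p + 1)) = 1 := by
    intro p
    have m1 : p ≠ p + 1 := ne_succ hN2 p
    have m2 : p + 1 ≠ p + 1 + 1 := ne_succ hN2 _
    have m3 : p ≠ p + 1 + 1 := ne_succ_succ hN p
    have h5 := cut p (p + 1) {p, p + 1, p + 1 + 1} (by simp) (by simp) (by simp) (by simp)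
    rw [sum_insert (by simp [m1, m3]), sum_pair m2, a0, a1, b0, b1, b0, b1,
      a1 (p + 1), ← off (p + 1) p m1 m3, ← off p (p + 1 + 1) m3.symm m2.symm] at h5
    simp only [zero_mul, mul_zero, one_mul, mul_one, zero_add] at h5
    have e1 : A p (p + 1) = 0 := a1 p
    have e2 : A (p + 1) (p + 1) = 0 := a0 (p + 1)
    rw [e1, e2]
    have h6 : ∀ a b : ZMod 2, a + (1 + b) = 0 → 0 + b + (a + 0) = 1 := by decide
    exact h6 _ _ h5
  -- the symmetric matrix
  set c : ZMod N → ZMod N → ZMod 2 := fun p q =>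
    A p q + A p (q + 1) + (if q = p + 1 then 1 else 0) with hc
  have hsym : ∀ p q, c p q = c q p := by
    intro p q
    by_cases hpq : q = p
    · rw [hpq]
    · by_cases h5 : q = p + 1
      · subst h5
        have h6 : p ≠ p + 1 + 1 := ne_succ_succ hN p
        simp only [hc, if_true, if_neg h6]
        have h7 := adj p
        have h8 : ∀ a b : ZMod 2, a + b = 1 → a + 1 = b + 0 := by decide
        exact h8 _ _ h7
      · by_cases h6 : p = q + 1
        · subst h6
          have h7 : q ≠ q + 1 + 1 := ne_succ_succ hN q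
          simp only [hc, if_true, if_neg h7]
          have h8 := adj q
          have h9 : ∀ a b : ZMod 2, a + b = 1 → b + 0 = a + 1 := by decide
          exact h9 _ _ h8
        · simp only [hc, if_neg h5, if_neg h6]
          rw [far p q hpq h5 h6]
  have hdiag : ∀ p, c p p = 0 := by
    intro p
    have h5 : p ≠ p + 1 := ne_succ hN2 p
    simp only [hc, if_neg h5]
    have e1 : A p p = 0 := a0 p
    have e2 : A p (p + 1) = 0 := a1 p
    rw [e1, e2]
    rfl
  have htot := sum_symm_zero c hsym hdiag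
  have hrow : ∀ p, ∑ q, c p q = 1 := by
    intro p
    simp only [hc]
    rw [sum_add_distrib, sum_add_distrib]
    have h5 : ∑ q, A p (q + 1) = ∑ q, A p q :=
      Fintype.sum_equiv (Equiv.addRight 1) _ _ fun q => rfl
    rw [h5, z2_add_self, zero_add, sum_ite_eq']
    simp
  simp only [hrow, sum_const, card_univ, ZMod.card, nsmul_eq_mul, mul_one] at htot
  rw [ZMod.natCast_eq_zero_iff] at htot
  exact (Nat.not_even_iff_odd.2 hodd) (even_iff_two_dvd.2 htot)

end Pool.Agent.Helper4.TD
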